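import Mathlib

set_option autoImplicit false

/-!
# Summation step: weights on classes
-/

namespace Pool.Agent.H38.BR

open Finset

variable {L : Type*} [Fintype L]

/-- Jensen: the mean logarithm of the size of the class of `x`, at most `K` classes. -/
theorem sum_log_class_le {τ : Type*} [DecidableEq τ] [Nonempty L] (cls : L → τ) (K : ℝ)
    (hK : ((univ.image cls).card : ℝ) ≤ K) :
    (Fintype.card L : ℝ) * (Real.log (Fintype.card L) - Real.log K) ≤
      ∑ x : L, Real.log (#{y : L | cls y = cls x}) := by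
  classical
  set N : ℝ := (Fintype.card L : ℝ) with hN
  have hNpos : 0 < N := by
    rw [hN]
    exact_mod_cast Fintype.card_pos
  have hKpos : 0 < K := by
    refine lt_of_lt_of_le ?_ hK
    have : 0 < (univ.image cls).card :=
      Finset.card_pos.2 ⟨cls (Classical.arbitrary L), by simp⟩
    exact_mod_cast this
  have hcpos : ∀ x : L, (0 : ℝ) < (#{y : L | cls y = cls x} : ℝ) := by
    intro x
    have : (0 : ℕ) < #{y : L | cls y = cls x} := Finset.card_pos.mpr ⟨x, by simp⟩
    exact_mod_cast this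
  have h1 : ∀ x : L, Real.log N - Real.log K - Real.log (#{y : L | cls y = cls x}) ≤
      N / K * (1 / (#{y : L | cls y = cls x} : ℝ)) - 1 := by
    intro x
    have h := Real.log_le_sub_one_of_pos
      (show 0 < N / K * (1 / (#{y : L | cls y = cls x} : ℝ)) from
        mul_pos (div_pos hNpos hKpos) (one_div_pos.mpr (hcpos x)))
    rw [Real.log_mul (div_pos hNpos hKpos).ne' (one_div_pos.mpr (hcpos x)).ne',
      Real.log_div hNpos.ne' hKpos.ne', one_div, Real.log_inv] at h
    rw [one_div]
    linarith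
  have h2 : ∑ x : L, 1 / (#{y : L | cls y = cls x} : ℝ) ≤ K := by
    have h := Finset.sum_comp (s := (univ : Finset L))
      (f := fun t : τ => 1 / (#{y : L | cls y = t} : ℝ)) (g := cls)
    rw [h]
    have h3 : ∀ t ∈ (univ : Finset L).image cls,
        (#{a ∈ (univ : Finset L) | cls a = t}) • (1 / (#{y : L | cls y = t} : ℝ)) = 1 := by
      intro t ht
      obtain ⟨x, _, rfl⟩ := Finset.mem_image.mp ht
      rw [nsmul_eq_mul, mul_one_div, div_self (hcpos x).ne']
    rw [Finset.sum_congr rfl h3, Finset.sum_const, nsmul_eq_mul, mul_one]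
    exact hK
  have h4 := Finset.sum_le_sum (s := (univ : Finset L)) fun x _ => h1 x
  simp only [Finset.sum_sub_distrib, ← Finset.mul_sum, Finset.sum_const, Finset.card_univ,
    nsmul_eq_mul, mul_one] at h4
  rw [← hN] at h4
  have h5 : N / K * ∑ x : L, 1 / (#{y : L | cls y = cls x} : ℝ) ≤ N := by
    calc _ ≤ N / K * K := mul_le_mul_of_nonneg_left h2 (div_pos hNpos hKpos).le
      _ = N := by field_simp
  linarith

/-- Summation step: weights `w` on classes with the pair inequality. -/
theorem sum_step {τ ι : Type*} [DecidableEq τ] [Fintype ι] [DecidableEq ι] [Nonempty L]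
    (cls : L → τ) (T : τ → Finset ι) (w : τ → ι → ℝ) (hw0 : ∀ x m, 0 ≤ w (cls x) m)
    (hsum : ∀ x : L, Real.log (#{y : L | cls y = cls x}) ≤ ∑ m, w (cls x) m)
    (hpair : ∀ x y : L, ∑ m ∈ T (cls y), w (cls x) m + ∑ m ∈ T (cls x), w (cls y) m ≤
      Real.log (Fintype.card L))
    (u : ℝ) (hu0 : 0 ≤ u) (hu : ∀ m, u ≤ (#{y : L | m ∈ T (cls y)} : ℝ))
    (K : ℝ) (hK : ((univ.image cls).card : ℝ) ≤ K) :
    2 * u * (Real.log (Fintype.card L) - Real.log K) ≤
      Fintype.card L * Real.log (Fintype.card L) := by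
  classical
  set N : ℝ := (Fintype.card L : ℝ) with hN
  set l : ℝ := Real.log N with hl
  have hNpos : 0 < N := by
    rw [hN]
    exact_mod_cast Fintype.card_pos
  have h1 : ∑ x : L, ∑ y : L, (∑ m ∈ T (cls y), w (cls x) m + ∑ m ∈ T (cls x), w (cls y) m) ≤
      N * (N * l) := by
    calc _ ≤ ∑ _x : L, ∑ _y : L, l :=
          Finset.sum_le_sum fun x _ => Finset.sum_le_sum fun y _ => hpair x y
      _ = N * (N * l) := by
          simp [Finset.sum_const, Finset.card_univ, nsmul_eq_mul, hN]
  have h2 : ∑ x : L, ∑ y : L, ∑ m ∈ T (cls y), w (cls x) m =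
      ∑ x : L, ∑ m, w (cls x) m * (#{y : L | m ∈ T (cls y)} : ℝ) := by
    refine Finset.sum_congr rfl fun x _ => ?_
    have : ∀ y : L, ∑ m ∈ T (cls y), w (cls x) m = ∑ m, if m ∈ T (cls y) then w (cls x) m else 0 := by
      intro y
      rw [← Finset.sum_filter]
      congr 1
      ext m
      simp
    simp only [this]
    rw [Finset.sum_comm]
    refine Finset.sum_congr rfl fun m _ => ?_
    rw [← Finset.sum_filter, Finset.sum_const, nsmul_eq_mul, mul_comm]
  have h3 : ∑ x : L, ∑ y : L, ∑ m ∈ T (cls x), w (cls y) m =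
      ∑ x : L, ∑ m, w (cls x) m * (#{y : L | m ∈ T (cls y)} : ℝ) := by
    rw [Finset.sum_comm]
    exact h2
  have h4 : u * ∑ x : L, ∑ m, w (cls x) m ≤
      ∑ x : L, ∑ m, w (cls x) m * (#{y : L | m ∈ T (cls y)} : ℝ) := by
    rw [Finset.mul_sum]
    refine Finset.sum_le_sum fun x _ => ?_
    rw [Finset.mul_sum]
    refine Finset.sum_le_sum fun m _ => ?_
    rw [mul_comm]
    exact mul_le_mul_of_nonneg_left (hu m) (hw0 x m)
  have h5 := sum_log_class_le cls K hK
  rw [← hN, ← hl] at h5
  have h6 : ∑ x : L, Real.log (#{y : L | cls y = cls x}) ≤ ∑ x : L, ∑ m, w (cls x) m :=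
    Finset.sum_le_sum fun x _ => hsum x
  have h7 : u * (N * (l - Real.log K)) ≤ u * ∑ x : L, ∑ m, w (cls x) m :=
    mul_le_mul_of_nonneg_left (h5.trans h6) hu0
  simp only [Finset.sum_add_distrib] at h1
  rw [h2, h3] at h1
  have h8 : N * (2 * u * (l - Real.log K)) ≤ N * (N * l) := by
    calc N * (2 * u * (l - Real.log K)) = 2 * (u * (N * (l - Real.log K))) := by ring
      _ ≤ N * (N * l) := by linarith
  exact le_of_mul_le_mul_left h8 hNpos

end Pool.Agent.H38.BR
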