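import Mathlib

set_option autoImplicit false

/-!
# A greedy hitting set
-/

namespace Pool.Agent.H38.BR

open Finset

/-- The greedy step: some `y` lies in at least an `e`-fraction of the sets. -/
theorem exists_hit {L I : Type*} [Fintype L] [DecidableEq L] [Nonempty L] (F : I → Finset L)
    (s : Finset I) (e : ℝ) (hF : ∀ i ∈ s, e * Fintype.card L ≤ ((F i).card : ℝ)) :
    ∃ y : L, e * s.card ≤ ((s.filter (fun i => y ∈ F i)).card : ℝ) := by
  classical
  have hsum : ∑ y : L, ((s.filter (fun i => y ∈ F i)).card : ℝ) = ∑ i ∈ s, ((F i).card : ℝ) := by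
    have h : ∑ y : L, (s.filter (fun i => y ∈ F i)).card = ∑ i ∈ s, (F i).card := by
      simp only [Finset.card_filter]
      rw [Finset.sum_comm]
      refine Finset.sum_congr rfl fun i _ => ?_
      rw [← Finset.card_filter]
      congr 1
      ext y
      simp
    exact_mod_cast h
  have h1 : ∑ _y : L, e * (s.card : ℝ) ≤ ∑ y : L, ((s.filter (fun i => y ∈ F i)).card : ℝ) := by
    rw [hsum, Finset.sum_const, Finset.card_univ, nsmul_eq_mul]
    calc (Fintype.card L : ℝ) * (e * s.card) = ∑ _i ∈ s, e * (Fintype.card L : ℝ) := by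
          rw [Finset.sum_const, nsmul_eq_mul]
          ring
      _ ≤ _ := Finset.sum_le_sum hF
  obtain ⟨y, _, hy⟩ := Finset.exists_le_of_sum_le (s := (univ : Finset L))
    ⟨Classical.arbitrary L, Finset.mem_univ _⟩ h1
  exact ⟨y, hy⟩

/-- Greedy hitting set: after `t` steps at most a `(1 - e) ^ t`-fraction of the sets is not hit. -/
theorem exists_partial {L I : Type*} [Fintype L] [DecidableEq L] [Nonempty L] (F : I → Finset L)
    (s : Finset I) (e : ℝ) (he1 : e ≤ 1) (hF : ∀ i ∈ s, e * Fintype.card L ≤ ((F i).card : ℝ)) :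
    ∀ t : ℕ, ∃ Y : Finset L, Y.card ≤ t ∧
      ((s.filter (fun i => ∀ y ∈ Y, y ∉ F i)).card : ℝ) ≤ (1 - e) ^ t * s.card := by
  classical
  intro t
  induction t with
  | zero => exact ⟨∅, by simp, by simp⟩
  | succ t ih =>
    obtain ⟨Y, hY, hc⟩ := ih
    set R := s.filter (fun i => ∀ y ∈ Y, y ∉ F i) with hR
    obtain ⟨y, hy⟩ := exists_hit F R e (fun i hi => hF i (Finset.mem_filter.1 hi).1)
    refine ⟨insert y Y, (Finset.card_insert_le _ _).trans (by omega), ?_⟩
    have hsub : s.filter (fun i => ∀ z ∈ insert y Y, z ∉ F i) = R.filter (fun i => ¬ y ∈ F i) := by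
      ext i
      simp only [hR, Finset.mem_filter, Finset.mem_insert, forall_eq_or_imp]
      tauto
    rw [hsub]
    have hcard := Finset.card_filter_add_card_filter_not (s := R) (fun i => y ∈ F i)
    have hcard' : ((R.filter (fun i => ¬ y ∈ F i)).card : ℝ) =
        (R.card : ℝ) - ((R.filter (fun i => y ∈ F i)).card : ℝ) := by
      have : ((R.filter (fun i => y ∈ F i)).card : ℝ) + ((R.filter (fun i => ¬ y ∈ F i)).card : ℝ)
          = (R.card : ℝ) := by exact_mod_cast hcard
      linarith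
    rw [hcard']
    calc (R.card : ℝ) - ((R.filter (fun i => y ∈ F i)).card : ℝ) ≤ (1 - e) * R.card := by linarith
      _ ≤ (1 - e) * ((1 - e) ^ t * s.card) := mul_le_mul_of_nonneg_left hc (by linarith)
      _ = (1 - e) ^ (t + 1) * s.card := by ring

/-- Greedy hitting set: sets of density at least `e` have a hitting set of size `t` if
`(1 - e) ^ t` times their number is less than `1`. -/
theorem hitting {L I : Type*} [Fintype L] [DecidableEq L] [Nonempty L] (F : I → Finset L)
    (s : Finset I) (e : ℝ) (hF : ∀ i ∈ s, e * Fintype.card L ≤ ((F i).card : ℝ))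
    (t : ℕ) (ht : (1 - e) ^ t * s.card < 1) :
    ∃ Y : Finset L, Y.card ≤ t ∧ ∀ i ∈ s, ∃ y ∈ Y, y ∈ F i := by
  classical
  rcases s.eq_empty_or_nonempty with rfl | ⟨i₀, hi₀⟩
  · exact ⟨∅, by simp, by simp⟩
  have hL : (0 : ℝ) < Fintype.card L := by exact_mod_cast Fintype.card_pos
  have he1 : e ≤ 1 := by
    have h1 := hF i₀ hi₀
    have h2 : ((F i₀).card : ℝ) ≤ Fintype.card L := by exact_mod_cast Finset.card_le_univ _
    by_contra hcon
    push Not at hcon
    nlinarith
  obtain ⟨Y, hY, hc⟩ := exists_partial F s e he1 hF t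
  refine ⟨Y, hY, fun i hi => ?_⟩
  by_contra hcon
  push Not at hcon
  have hpos : 0 < (s.filter (fun i => ∀ y ∈ Y, y ∉ F i)).card :=
    Finset.card_pos.2 ⟨i, Finset.mem_filter.2 ⟨hi, hcon⟩⟩
  have : (1 : ℝ) ≤ ((s.filter (fun i => ∀ y ∈ Y, y ∉ F i)).card : ℝ) := by exact_mod_cast hpos
  linarith

/-- `k` steps suffice if `log (number of sets) < e * k`. -/
theorem hitting_log {L I : Type*} [Fintype L] [DecidableEq L] [Nonempty L] (F : I → Finset L)
    (s : Finset I) (e : ℝ) (hF : ∀ i ∈ s, e * Fintype.card L ≤ ((F i).card : ℝ))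
    (t : ℕ) (ht : Real.log s.card < e * t) :
    ∃ Y : Finset L, Y.card ≤ t ∧ ∀ i ∈ s, ∃ y ∈ Y, y ∈ F i := by
  classical
  rcases s.eq_empty_or_nonempty with rfl | ⟨i₀, hi₀⟩
  · exact ⟨∅, by simp, by simp⟩
  have hL : (0 : ℝ) < Fintype.card L := by exact_mod_cast Fintype.card_pos
  have he1 : e ≤ 1 := by
    have h1 := hF i₀ hi₀
    have h2 : ((F i₀).card : ℝ) ≤ Fintype.card L := by exact_mod_cast Finset.card_le_univ _
    by_contra hcon
    push Not at hcon
    nlinarith
  refine hitting F s e hF t ?_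
  have hs : (0 : ℝ) < s.card := by exact_mod_cast Finset.card_pos.2 ⟨i₀, hi₀⟩
  have h1 : (1 - e) ^ t ≤ Real.exp (-(e * t)) := by
    calc (1 - e) ^ t ≤ (Real.exp (-e)) ^ t := by
          refine pow_le_pow_left₀ (by linarith) ?_ t
          have := Real.add_one_le_exp (-e)
          linarith
      _ = Real.exp (-(e * t)) := by
          rw [← Real.exp_nat_mul]
          congr 1
          ring
  calc (1 - e) ^ t * s.card ≤ Real.exp (-(e * t)) * s.card :=
        mul_le_mul_of_nonneg_right h1 hs.le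
    _ = Real.exp (Real.log s.card - e * t) := by
        rw [Real.exp_sub, Real.exp_log hs, Real.exp_neg]
        field_simp
    _ < 1 := by
        rw [Real.exp_lt_one_iff]
        linarith

end Pool.Agent.H38.BR
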