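import Mathlib
import Pool.Agent.H94.Mey2.Mini

set_option autoImplicit false

/-!
# A finite minimax lemma
-/

namespace Pool.Agent.H38.BR

open Finset

/-- Finite minimax: if for every law `ν` on the labels there is a law `σ` on the seeds with average
loss `< t`, then one law `σ` has loss `< t` at every label. -/
theorem exists_mixed {ι κ : Type*} [Fintype ι] [Nonempty ι] [Fintype κ] (loss : κ → ι → ℝ) (t : ℝ)
    (h : ∀ ν : ι → ℝ, (∀ m, 0 ≤ ν m) → ∑ m, ν m = 1 →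
      ∃ σ : κ → ℝ, (∀ s, 0 ≤ σ s) ∧ ∑ s, σ s = 1 ∧ ∑ m, ν m * ∑ s, σ s * loss s m < t) :
    ∃ σ : κ → ℝ, (∀ s, 0 ≤ σ s) ∧ ∑ s, σ s = 1 ∧ ∀ m, ∑ s, σ s * loss s m < t := by
  classical
  set X : Set (ι → ℝ) := {τ | ∃ σ : κ → ℝ, (∀ s, 0 ≤ σ s) ∧ ∑ s, σ s = 1 ∧
    ∀ m, τ m = -∑ s, σ s * loss s m} with hX
  have hXc : Convex ℝ X := by
    rintro τ ⟨σ, h0, h1, h2⟩ τ' ⟨σ', h0', h1', h2'⟩ a b ha hb hab
    refine ⟨fun s => a * σ s + b * σ' s, fun s => ?_, ?_, fun m => ?_⟩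
    · exact add_nonneg (mul_nonneg ha (h0 s)) (mul_nonneg hb (h0' s))
    · rw [Finset.sum_add_distrib, ← Finset.mul_sum, ← Finset.mul_sum, h1, h1', mul_one, mul_one,
        hab]
    · simp only [Pi.add_apply, Pi.smul_apply, smul_eq_mul, h2 m, h2' m]
      rw [mul_neg, mul_neg, ← neg_add, Finset.mul_sum, Finset.mul_sum, ← Finset.sum_add_distrib]
      congr 1
      refine Finset.sum_congr rfl fun s _ => ?_
      ring
  obtain ⟨τ, ⟨σ, h0, h1, h2⟩, hτ⟩ := Pool.Agent.H94.Mey2.minimax_bilin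
    (Y := stdSimplex ℝ ι) (isCompact_stdSimplex ℝ ι) (convex_stdSimplex ℝ ι)
    (by
      obtain ⟨m⟩ := ‹Nonempty ι›
      exact ⟨Pi.single m 1, single_mem_stdSimplex ℝ m⟩) hXc (-t)
    (by
      rintro ν ⟨hν0, hν1⟩
      obtain ⟨σ, h0, h1, h2⟩ := h ν hν0 hν1
      refine ⟨fun m => -∑ s, σ s * loss s m, ⟨σ, h0, h1, fun _ => rfl⟩, ?_⟩
      simp only [mul_neg, Finset.sum_neg_distrib]
      linarith)
  refine ⟨σ, h0, h1, fun m => ?_⟩
  have h3 := hτ (Pi.single m 1) (single_mem_stdSimplex ℝ m)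
  simp only [Pi.single_apply, ite_mul, one_mul, zero_mul, Finset.sum_ite_eq', Finset.mem_univ,
    if_true] at h3
  rw [h2 m] at h3
  linarith

end Pool.Agent.H38.BR
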