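import Mathlib
import Pool.Agent.H39.Fr.Ent
import Pool.Agent.H38.BR.SumStep

set_option autoImplicit false

/-!
# Two independent seeds
-/

namespace Pool.Agent.H38.BR

open Finset Pool.Agent.H39.Fr.Ent

open Classical in
/-- Weights for a family of maps `h s : L → L` with `h s x ≤ x`, and the pair inequality. -/
theorem exists_w2 {L : Type*} [Lattice L] [Fintype L] {ι κ : Type*} [Fintype ι]
    (j : ι → L) (hinj : ∀ x y : L, (∀ m, x ⊓ j m = y ⊓ j m) → x = y) (h : κ → L → L)
    (hle : ∀ s x, h s x ≤ x) :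
    ∃ w : κ → L → ι → ℝ, (∀ s c m, 0 ≤ w s c m) ∧
      (∀ s x, ∑ m, w s (h s x) m = Real.log (#{y : L | h s y = h s x} : ℝ)) ∧
      (∀ s s' x y, ∑ m with j m ≤ h s' y, w s (h s x) m + ∑ m with j m ≤ h s x, w s' (h s' y) m ≤
        Real.log (Fintype.card L)) := by
  set f : L → ι → L := fun y m => y ⊓ j m with hf
  set D : κ → L → Finset (ι → L) :=
    fun s c => (univ.filter (fun y => h s y = c)).image f with hD
  have hex : ∀ (s : κ) (c : L), ∃ w : ι → ℝ, (∀ m, 0 ≤ w m) ∧
      ((D s c).Nonempty → ∑ m, w m = Real.log (D s c).card ∧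
        ∀ A : Finset ι, ∑ m ∈ A, w m ≤ Real.log ((D s c).image (mask A)).card) := by
    intro s c
    by_cases hS : (D s c).Nonempty
    · obtain ⟨w, h0, hs, hA⟩ := exists_weights (D s c) hS
      exact ⟨w, h0, fun _ => ⟨hs, hA⟩⟩
    · exact ⟨fun _ => 0, fun _ => le_rfl, fun h' => absurd h' hS⟩
  choose w hw0 hw using hex
  have hne : ∀ s x, (D s (h s x)).Nonempty := by
    intro s x
    refine ⟨f x, ?_⟩
    simp only [hD]
    exact Finset.mem_image_of_mem f (by simp)
  have hfinj : Function.Injective f := by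
    intro x y hxy
    exact hinj x y (fun m => congrFun hxy m)
  refine ⟨w, hw0, ?_, ?_⟩
  · intro s x
    rw [(hw _ _ (hne s x)).1]
    simp only [hD]
    rw [Finset.card_image_of_injective _ hfinj]
  · intro s s' x y
    have h1 := (hw _ _ (hne s x)).2 (univ.filter (fun m => j m ≤ h s' y))
    have h2 := (hw _ _ (hne s' y)).2 (univ.filter (fun m => j m ≤ h s x))
    set P : Finset ι := univ.filter (fun m => j m ≤ h s' y) with hP
    set Q : Finset ι := univ.filter (fun m => j m ≤ h s x) with hQ
    set A := (D s (h s x)).image (mask P) with hA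
    set B := (D s' (h s' y)).image (mask Q) with hB
    have hApos : (0 : ℝ) < A.card := by
      exact_mod_cast ((hne s x).image _).card_pos
    have hBpos : (0 : ℝ) < B.card := by
      exact_mod_cast ((hne s' y).image _).card_pos
    have hsub : A ×ˢ B ⊆
        (univ : Finset L).image (fun z => (mask P (f z), mask Q (f z))) := by
      rintro ⟨a, b⟩ hab
      rw [Finset.mem_product] at hab
      obtain ⟨ha, hb⟩ := hab
      simp only [hA, hB, hD, Finset.mem_image, Finset.mem_filter, Finset.mem_univ,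
        true_and] at ha hb
      obtain ⟨a', ⟨u, hu, rfl⟩, hau⟩ := ha
      obtain ⟨b', ⟨v, hv, rfl⟩, hbv⟩ := hb
      rw [Finset.mem_image]
      refine ⟨u ⊓ v, Finset.mem_univ _, ?_⟩
      rw [← hau, ← hbv]
      refine Prod.ext ?_ ?_
      · funext m
        simp only [mask]
        split_ifs with hm
        · have hm' : j m ≤ h s' y := by simpa [hP] using hm
          have : j m ≤ v := (hm'.trans (le_of_eq hv.symm)).trans (hle s' v)
          simp only [hf]
          rw [inf_assoc, inf_eq_right.2 this]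
        · rfl
      · funext m
        simp only [mask]
        split_ifs with hm
        · have hm' : j m ≤ h s x := by simpa [hQ] using hm
          have : j m ≤ u := (hm'.trans (le_of_eq hu.symm)).trans (hle s u)
          simp only [hf]
          rw [inf_comm u v, inf_assoc, inf_eq_right.2 this]
        · rfl
    have hcard : A.card * B.card ≤ Fintype.card L := by
      rw [← Finset.card_product]
      exact (Finset.card_le_card hsub).trans (Finset.card_image_le.trans (by simp))
    calc ∑ m ∈ P, w s (h s x) m + ∑ m ∈ Q, w s' (h s' y) m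
        ≤ Real.log A.card + Real.log B.card := add_le_add h1 h2
      _ = Real.log ((A.card : ℝ) * B.card) := (Real.log_mul hApos.ne' hBpos.ne').symm
      _ ≤ Real.log (Fintype.card L) := by
          apply Real.log_le_log (mul_pos hApos hBpos)
          exact_mod_cast hcard

open Classical in
/-- The double count with two independent seeds. -/
theorem two {L : Type*} [Lattice L] [Fintype L] [Nonempty L] {ι κ : Type*} [Fintype ι] [Fintype κ]
    (j : ι → L) (hinj : ∀ x y : L, (∀ m, x ⊓ j m = y ⊓ j m) → x = y) (h : κ → L → L)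
    (hle : ∀ s x, h s x ≤ x) (σ : κ → ℝ) (hσ0 : ∀ s, 0 ≤ σ s) (hσ1 : ∑ s, σ s = 1) (K : ℝ)
    (hK : ∀ s, (((univ : Finset L).image (h s)).card : ℝ) ≤ K) (u : ℝ) (hu0 : 0 ≤ u)
    (hu : ∀ m, u ≤ ∑ s, σ s * (#{y : L | j m ≤ h s y} : ℝ)) :
    2 * u * (Real.log (Fintype.card L) - Real.log K) ≤
      Fintype.card L * Real.log (Fintype.card L) := by
  obtain ⟨w, hw0, hw1, hw2⟩ := exists_w2 j hinj h hle
  set N : ℝ := (Fintype.card L : ℝ) with hN
  set l : ℝ := Real.log N with hl
  have hNpos : 0 < N := by
    rw [hN]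
    exact_mod_cast Fintype.card_pos
  set Q : κ → κ → ℝ := fun s s' => ∑ x : L, ∑ y : L, ∑ m with j m ≤ h s' y, w s (h s x) m with hQ
  have h1 : ∀ s s', Q s s' + Q s' s ≤ N * (N * l) := by
    intro s s'
    have e1 : Q s' s = ∑ x : L, ∑ y : L, ∑ m with j m ≤ h s x, w s' (h s' y) m := by
      simp only [hQ]
      rw [Finset.sum_comm]
    rw [e1]
    simp only [hQ]
    rw [← Finset.sum_add_distrib]
    simp only [← Finset.sum_add_distrib]
    calc _ ≤ ∑ _x : L, ∑ _y : L, l :=
          Finset.sum_le_sum fun x _ => Finset.sum_le_sum fun y _ => hw2 s s' x y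
      _ = N * (N * l) := by
          simp [Finset.sum_const, Finset.card_univ, nsmul_eq_mul, hN]
  have h2 : ∀ s s', Q s s' = ∑ x : L, ∑ m, w s (h s x) m * (#{y : L | j m ≤ h s' y} : ℝ) := by
    intro s s'
    simp only [hQ]
    refine Finset.sum_congr rfl fun x _ => ?_
    simp only [Finset.sum_filter]
    rw [Finset.sum_comm]
    refine Finset.sum_congr rfl fun m _ => ?_
    rw [← Finset.sum_filter, Finset.sum_const, nsmul_eq_mul, mul_comm]
  have h3 : ∀ s, u * (N * (l - Real.log K)) ≤ ∑ s', σ s' * Q s s' := by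
    intro s
    have e1 : ∑ s', σ s' * Q s s' =
        ∑ x : L, ∑ m, w s (h s x) m * ∑ s', σ s' * (#{y : L | j m ≤ h s' y} : ℝ) := by
      simp only [h2, Finset.mul_sum]
      rw [Finset.sum_comm]
      refine Finset.sum_congr rfl fun x _ => ?_
      rw [Finset.sum_comm]
      refine Finset.sum_congr rfl fun m _ => Finset.sum_congr rfl fun s' _ => ?_
      ring
    rw [e1]
    have e2 := sum_log_class_le (h s) K (hK s)
    rw [← hN, ← hl] at e2
    calc u * (N * (l - Real.log K)) ≤ u * ∑ x : L, ∑ m, w s (h s x) m := by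
          refine mul_le_mul_of_nonneg_left ?_ hu0
          refine e2.trans (le_of_eq ?_)
          refine Finset.sum_congr rfl fun x _ => ?_
          rw [hw1]
      _ ≤ _ := by
          rw [Finset.mul_sum]
          refine Finset.sum_le_sum fun x _ => ?_
          rw [Finset.mul_sum]
          refine Finset.sum_le_sum fun m _ => ?_
          rw [mul_comm]
          exact mul_le_mul_of_nonneg_left (hu m) (hw0 _ _ _)
  have h4 : u * (N * (l - Real.log K)) ≤ ∑ s, σ s * ∑ s', σ s' * Q s s' := by
    calc u * (N * (l - Real.log K)) = ∑ s, σ s * (u * (N * (l - Real.log K))) := by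
          rw [← Finset.sum_mul, hσ1, one_mul]
      _ ≤ _ := Finset.sum_le_sum fun s _ => mul_le_mul_of_nonneg_left (h3 s) (hσ0 s)
  have h5 : ∑ s, σ s * ∑ s', σ s' * Q s s' + ∑ s, σ s * ∑ s', σ s' * Q s s' ≤ N * (N * l) := by
    have e1 : ∑ s, σ s * ∑ s', σ s' * Q s s' = ∑ s, σ s * ∑ s', σ s' * Q s' s := by
      simp only [Finset.mul_sum]
      rw [Finset.sum_comm]
      refine Finset.sum_congr rfl fun s _ => Finset.sum_congr rfl fun s' _ => ?_
      ring
    calc ∑ s, σ s * ∑ s', σ s' * Q s s' + ∑ s, σ s * ∑ s', σ s' * Q s s'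
        = ∑ s, σ s * ∑ s', σ s' * Q s s' + ∑ s, σ s * ∑ s', σ s' * Q s' s := by rw [← e1]
      _ = ∑ s, σ s * ∑ s', σ s' * (Q s s' + Q s' s) := by
          simp only [mul_add, Finset.sum_add_distrib]
      _ ≤ ∑ s, σ s * ∑ s', σ s' * (N * (N * l)) :=
          Finset.sum_le_sum fun s _ => mul_le_mul_of_nonneg_left
            (Finset.sum_le_sum fun s' _ => mul_le_mul_of_nonneg_left (h1 s s') (hσ0 s')) (hσ0 s)
      _ = N * (N * l) := by
          simp only [← Finset.sum_mul, hσ1, one_mul]
  have h6 : N * (2 * u * (l - Real.log K)) ≤ N * (N * l) := by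
    calc N * (2 * u * (l - Real.log K)) = 2 * (u * (N * (l - Real.log K))) := by ring
      _ ≤ N * (N * l) := by linarith
  exact le_of_mul_le_mul_left h6 hNpos

end Pool.Agent.H38.BR
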