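import Mathlib
import Pool.Agent.H38.BR.Two
import Pool.Agent.H38.BR.Mixed

set_option autoImplicit false

/-!
# Lattices of small breadth: assembly
-/

namespace Pool.Agent.H38.BR

open Finset

open Classical in
/-- The join of the members of the seed `S` which are below `x`. -/
noncomputable def hs {L : Type*} [Lattice L] [BoundedOrder L] {ι : Type*} (j : ι → L) {n : ℕ}
    (S : Fin n → ι) (x : L) : L :=
  (univ.filter (fun i => j (S i) ≤ x)).sup (fun i => j (S i))

theorem hs_le {L : Type*} [Lattice L] [BoundedOrder L] {ι : Type*} (j : ι → L) {n : ℕ}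
    (S : Fin n → ι) (x : L) : hs j S x ≤ x := by
  classical
  unfold hs
  refine Finset.sup_le fun i hi => ?_
  exact (Finset.mem_filter.1 hi).2

/-- An element of a finite lattice is determined by the join-irreducibles below it. -/
theorem eq_of_supIrred_le {L : Type*} [Lattice L] [Fintype L] {x y : L}
    (h : ∀ a : L, SupIrred a → (a ≤ x ↔ a ≤ y)) : x = y := by
  classical
  have hne : Nonempty L := ⟨x⟩
  let _ : BoundedOrder L := Fintype.toBoundedOrder L
  have aux : ∀ x y : L, (∀ a : L, SupIrred a → a ≤ x → a ≤ y) → x ≤ y := by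
    intro x y hxy
    obtain ⟨s, hs, hirr⟩ := exists_supIrred_decomposition x
    rw [← hs]
    refine Finset.sup_le fun a ha => hxy a (hirr ha) ?_
    rw [← hs]
    exact Finset.le_sup (f := id) ha
  exact le_antisymm (aux x y fun a ha => (h a ha).1) (aux y x fun a ha => (h a ha).2)

open Classical in
/-- Assembly, with the three combinatorial facts as hypotheses. -/
theorem asm {L : Type*} [Lattice L] [BoundedOrder L] [Fintype L] {ι : Type*} [Fintype ι]
    [Nonempty ι] (j : ι → L) (hinj : ∀ x y : L, (∀ m, x ⊓ j m = y ⊓ j m) → x = y) (b k : ℕ)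
    (hk : 1 ≤ k)
    (hcount : ∀ S : Fin (k * b) → ι,
      (((univ : Finset L).image (hs j S)).card : ℝ) ≤ (Real.exp 1 * k) ^ b)
    (hloo : ∀ ν : ι → ℝ, (∀ m, 0 ≤ ν m) → ∑ m, ν m = 1 → ∀ y : L,
      (((k * b : ℕ) : ℝ) + 1) * ∑ S : Fin (k * b) → ι, (∏ i, ν (S i)) *
        ∑ m, ν m * (if j m ≤ y ∧ ¬ j m ≤ hs j S y then 1 else 0) ≤ b)
    (hθ : b * (1 + Real.log k) < Real.log (Fintype.card L)) :
    ∃ m, (#{x : L | j m ≤ x} : ℝ) ≤ (1 / k + Real.log (Fintype.card L) /
      (2 * (Real.log (Fintype.card L) - b * (1 + Real.log k)))) * Fintype.card L := by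
  have hLne : Nonempty L := ⟨⊥⟩
  set N : ℝ := (Fintype.card L : ℝ) with hN
  have hNpos : 0 < N := by
    rw [hN]
    exact_mod_cast Fintype.card_pos
  have hkpos : (0 : ℝ) < k := by exact_mod_cast hk
  -- a law on the seeds
  obtain ⟨σ, hσ0, hσ1, hσ⟩ := exists_mixed (ι := ι) (κ := Fin (k * b) → ι)
    (fun S m => ∑ y : L, if j m ≤ y ∧ ¬ j m ≤ hs j S y then (1 : ℝ) else 0) (N / k)
    (by
      intro ν hν0 hν1
      refine ⟨fun S => ∏ i, ν (S i), fun S => Finset.prod_nonneg fun i _ => hν0 _, ?_, ?_⟩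
      · rw [← Fintype.sum_pow, hν1, one_pow]
      · have e1 : ∑ m, ν m * ∑ S : Fin (k * b) → ι, (∏ i, ν (S i)) *
            (∑ y : L, if j m ≤ y ∧ ¬ j m ≤ hs j S y then (1 : ℝ) else 0) =
            ∑ y : L, ∑ S : Fin (k * b) → ι, (∏ i, ν (S i)) *
              ∑ m, ν m * (if j m ≤ y ∧ ¬ j m ≤ hs j S y then 1 else 0) := by
          simp only [Finset.mul_sum]
          rw [Finset.sum_comm]
          conv_rhs => rw [Finset.sum_comm]
          refine Finset.sum_congr rfl fun S _ => ?_
          rw [Finset.sum_comm]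
          refine Finset.sum_congr rfl fun y _ => Finset.sum_congr rfl fun m _ => ?_
          ring
        rw [e1]
        have hn1 : (0 : ℝ) < ((k * b : ℕ) : ℝ) + 1 := by positivity
        have e2 : ∀ y : L, ∑ S : Fin (k * b) → ι, (∏ i, ν (S i)) *
              ∑ m, ν m * (if j m ≤ y ∧ ¬ j m ≤ hs j S y then 1 else 0) ≤
              b / (((k * b : ℕ) : ℝ) + 1) := by
          intro y
          rw [le_div_iff₀ hn1, mul_comm]
          exact hloo ν hν0 hν1 y
        calc _ ≤ ∑ _y : L, (b : ℝ) / (((k * b : ℕ) : ℝ) + 1) := Finset.sum_le_sum fun y _ => e2 y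
          _ = N * (b / (((k * b : ℕ) : ℝ) + 1)) := by
              rw [Finset.sum_const, Finset.card_univ, nsmul_eq_mul]
          _ < N * (1 / k) := by
              refine mul_lt_mul_of_pos_left ?_ hNpos
              rw [div_lt_div_iff₀ hn1 hkpos]
              push_cast
              nlinarith
          _ = N / k := by ring)
  -- the label with the smallest frequency
  obtain ⟨m, -, hm⟩ := Finset.exists_min_image (univ : Finset ι)
    (fun m => ∑ S, σ S * (#{y : L | j m ≤ hs j S y} : ℝ)) Finset.univ_nonempty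
  refine ⟨m, ?_⟩
  set u : ℝ := ∑ S, σ S * (#{y : L | j m ≤ hs j S y} : ℝ) with hu
  have hu0 : 0 ≤ u := Finset.sum_nonneg fun S _ => mul_nonneg (hσ0 S) (Nat.cast_nonneg _)
  have h1 := two j hinj (fun S => hs j S) (fun S x => hs_le j S x) σ hσ0 hσ1
    ((Real.exp 1 * k) ^ b) hcount u hu0 (fun m' => hm m' (Finset.mem_univ _))
  rw [← hN] at h1
  have hlogK : Real.log ((Real.exp 1 * k) ^ b) = b * (1 + Real.log k) := by
    rw [Real.log_pow, Real.log_mul (Real.exp_pos 1).ne' hkpos.ne', Real.log_exp]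
  rw [hlogK] at h1
  have hd : 0 < Real.log N - b * (1 + Real.log k) := by
    rw [hN]
    linarith
  have h2 : u ≤ Real.log N / (2 * (Real.log N - b * (1 + Real.log k))) * N := by
    rw [div_mul_eq_mul_div, le_div_iff₀ (by positivity)]
    linarith
  -- the frequency of `j m`
  have h3 : (#{y : L | j m ≤ y} : ℝ) ≤ u + N / k := by
    have e1 : ∀ S : Fin (k * b) → ι, (#{y : L | j m ≤ y} : ℝ) ≤ (#{y : L | j m ≤ hs j S y} : ℝ) +
        ∑ y : L, if j m ≤ y ∧ ¬ j m ≤ hs j S y then (1 : ℝ) else 0 := by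
      intro S
      have e2 : (#{y : L | j m ≤ y}) ≤ (#{y : L | j m ≤ hs j S y}) +
          #{y : L | j m ≤ y ∧ ¬ j m ≤ hs j S y} := by
        refine le_trans (Finset.card_le_card ?_) (Finset.card_union_le _ _)
        intro y hy
        simp only [Finset.mem_union, Finset.mem_filter, Finset.mem_univ, true_and] at hy ⊢
        by_cases hc : j m ≤ hs j S y
        · exact Or.inl hc
        · exact Or.inr ⟨hy, hc⟩
      rw [← Finset.sum_filter, Finset.sum_const, nsmul_eq_mul, mul_one]
      exact_mod_cast e2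
    calc (#{y : L | j m ≤ y} : ℝ) = ∑ S, σ S * (#{y : L | j m ≤ y} : ℝ) := by
          rw [← Finset.sum_mul, hσ1, one_mul]
      _ ≤ ∑ S, σ S * ((#{y : L | j m ≤ hs j S y} : ℝ) +
            ∑ y : L, if j m ≤ y ∧ ¬ j m ≤ hs j S y then (1 : ℝ) else 0) :=
          Finset.sum_le_sum fun S _ => mul_le_mul_of_nonneg_left (e1 S) (hσ0 S)
      _ = u + ∑ S, σ S * ∑ y : L, (if j m ≤ y ∧ ¬ j m ≤ hs j S y then (1 : ℝ) else 0) := by
          simp only [mul_add, Finset.sum_add_distrib, hu]
      _ ≤ u + N / k := by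
          have := (hσ m).le
          linarith
  calc (#{x : L | j m ≤ x} : ℝ) ≤ u + N / k := h3
    _ ≤ Real.log N / (2 * (Real.log N - b * (1 + Real.log k))) * N + N / k := by linarith
    _ = _ := by ring

end Pool.Agent.H38.BR
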