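import Pool.Agent.H38.BR.TrRank

set_option autoImplicit false

/-!
The counting core of the theorem on lattices with `r` maximal join-irreducibles and more than
`2 ^ (r * (2 * r + 1))` elements.
-/

namespace Pool.Agent.H38.BR

open Finset

variable {L : Type*} [Fintype L]

/-- Jensen: the mean logarithm of the size of the class of `x`. -/
theorem sum_log_class {τ : Type*} [Fintype τ] [DecidableEq τ] [Nonempty L] (T : L → τ) :
    (Fintype.card L : ℝ) * (Real.log (Fintype.card L) - Real.log (Fintype.card τ)) ≤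
      ∑ x : L, Real.log (#{y : L | T y = T x}) := by
  classical
  set N : ℝ := (Fintype.card L : ℝ) with hN
  set K : ℝ := (Fintype.card τ : ℝ) with hK
  have hNpos : 0 < N := by
    rw [hN]
    exact_mod_cast Fintype.card_pos
  have hτ : Nonempty τ := ⟨T (Classical.arbitrary L)⟩
  have hKpos : 0 < K := by
    rw [hK]
    exact_mod_cast Fintype.card_pos
  have hcpos : ∀ x : L, (0 : ℝ) < (#{y : L | T y = T x} : ℝ) := by
    intro x
    have : (0 : ℕ) < #{y : L | T y = T x} := Finset.card_pos.mpr ⟨x, by simp⟩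
    exact_mod_cast this
  have h1 : ∀ x : L, Real.log N - Real.log K - Real.log (#{y : L | T y = T x}) ≤
      N / K * (1 / (#{y : L | T y = T x} : ℝ)) - 1 := by
    intro x
    have h := Real.log_le_sub_one_of_pos
      (show 0 < N / K * (1 / (#{y : L | T y = T x} : ℝ)) from
        mul_pos (div_pos hNpos hKpos) (one_div_pos.mpr (hcpos x)))
    rw [Real.log_mul (div_pos hNpos hKpos).ne' (one_div_pos.mpr (hcpos x)).ne',
      Real.log_div hNpos.ne' hKpos.ne', one_div, Real.log_inv] at h
    rw [one_div]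
    linarith
  have h2 : ∑ x : L, 1 / (#{y : L | T y = T x} : ℝ) ≤ K := by
    have h := Finset.sum_comp (s := (univ : Finset L))
      (f := fun t : τ => 1 / (#{y : L | T y = t} : ℝ)) (g := T)
    rw [h]
    have h3 : ∀ t ∈ (univ : Finset L).image T,
        (#{a ∈ (univ : Finset L) | T a = t}) • (1 / (#{y : L | T y = t} : ℝ)) = 1 := by
      intro t ht
      obtain ⟨x, _, rfl⟩ := Finset.mem_image.mp ht
      rw [nsmul_eq_mul, mul_one_div, div_self (hcpos x).ne']
    rw [Finset.sum_congr rfl h3, Finset.sum_const, nsmul_eq_mul, mul_one, hK]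
    exact_mod_cast Finset.card_le_univ _
  have h4 := Finset.sum_le_sum (s := (univ : Finset L)) fun x _ => h1 x
  simp only [Finset.sum_sub_distrib, ← Finset.mul_sum, Finset.sum_const, Finset.card_univ,
    nsmul_eq_mul, mul_one] at h4
  rw [← hN] at h4
  have h5 : N / K * ∑ x : L, 1 / (#{y : L | T y = T x} : ℝ) ≤ N := by
    calc _ ≤ N / K * K := mul_le_mul_of_nonneg_left h2 (div_pos hNpos hKpos).le
      _ = N := by field_simp
  linarith

/-- The core: weights `w T m` with the pair inequality, when every label `m` lies in at least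
`c * N` of the sets `T y`. -/
theorem core' [Nonempty L] (r : ℕ) (c κ : ℝ) (hc : 0 ≤ c) (hκ : 0 ≤ κ)
    (T : L → Finset (Fin r))
    (w : Finset (Fin r) → Fin r → ℝ)
    (hw0 : ∀ t m, 0 ≤ w t m)
    (hsum : ∀ x : L, Real.log (#{y : L | T y = T x}) - κ ≤ ∑ m, w (T x) m)
    (hz : ∀ x : L, ∀ m ∈ T x, w (T x) m = 0)
    (hpair : ∀ x y : L, ∑ m ∈ T y, w (T x) m + ∑ m ∈ T x, w (T y) m ≤
      Real.log (Fintype.card L))
    (hu : ∀ m, c * Fintype.card L ≤ (#{y : L | m ∈ T y} : ℝ)) :
    Real.log (Fintype.card L) ≤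
      (2 * r + 1) * ((1 - 2 * c) * Real.log (Fintype.card L) +
        2 * c * (r * Real.log 2 + κ)) := by
  classical
  set N : ℝ := (Fintype.card L : ℝ) with hN
  set l : ℝ := Real.log N with hl
  have hN1 : 1 ≤ N := by
    rw [hN]
    exact_mod_cast Fintype.card_pos
  have hl0 : 0 ≤ l := Real.log_nonneg hN1
  set a : Fin r → L → ℝ := fun m x => w (T x) m with ha
  set b : Fin r → L → ℝ := fun m x => if m ∈ T x then 1 else 0 with hb
  set P : L → L → ℝ := fun x y => l - ∑ m, (a m x * b m y + b m x * a m y) with hP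
  have hPe : ∀ x y, P x y = l - (∑ m ∈ T y, w (T x) m + ∑ m ∈ T x, w (T y) m) := by
    intro x y
    simp only [hP, ha, hb, Finset.sum_add_distrib, mul_ite, mul_one, mul_zero, ite_mul, one_mul,
      zero_mul]
    congr 2
    · rw [← Finset.sum_filter]
      congr 1
      ext m
      simp
    · rw [← Finset.sum_filter]
      congr 1
      ext m
      simp
  have hP0 : ∀ x y, 0 ≤ P x y := by
    intro x y
    rw [hPe]
    have := hpair x y
    linarith
  have hP1 : ∀ x y, P x y ≤ l := by
    intro x y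
    rw [hPe]
    have h1 : 0 ≤ ∑ m ∈ T y, w (T x) m := Finset.sum_nonneg fun m _ => hw0 _ _
    have h2 : 0 ≤ ∑ m ∈ T x, w (T y) m := Finset.sum_nonneg fun m _ => hw0 _ _
    linarith
  have hPd : ∀ x, P x x = l := by
    intro x
    rw [hPe, Finset.sum_eq_zero (hz x)]
    ring
  have h1 := diag_sq_le_two r l a b
  have h2 : ∑ x, (l - ∑ m, (a m x * b m x + b m x * a m x)) = N * l := by
    have : ∀ x : L, (l - ∑ m, (a m x * b m x + b m x * a m x)) = l := hPd
    simp only [this, Finset.sum_const, Finset.card_univ, nsmul_eq_mul, ← hN]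
  have h3 : ∑ x : L, ∑ y : L, P x y ^ 2 ≤ l * ∑ x : L, ∑ y : L, P x y := by
    rw [Finset.mul_sum]
    refine Finset.sum_le_sum fun x _ => ?_
    rw [Finset.mul_sum]
    refine Finset.sum_le_sum fun y _ => ?_
    rw [sq]
    exact mul_le_mul_of_nonneg_right (hP1 x y) (hP0 x y)
  have hub : ∀ m, c * N ≤ ∑ y : L, b m y := by
    intro m
    have : ∑ y : L, b m y = (#{y : L | m ∈ T y} : ℝ) := by
      simp [hb]
    rw [this]
    exact hu m
  have h4 : ∑ x : L, ∑ y : L, P x y ≤ N ^ 2 * l - 2 * c * N * ∑ x : L, ∑ m, a m x := by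
    have e1 : ∑ x : L, ∑ y : L, P x y = N ^ 2 * l - 2 * ∑ m, (∑ x : L, a m x) * (∑ y : L, b m y) := by
      have e2 : ∑ x : L, ∑ y : L, ∑ m, a m x * b m y = ∑ m, (∑ x : L, a m x) * (∑ y : L, b m y) := by
        calc _ = ∑ x : L, ∑ m, ∑ y : L, a m x * b m y :=
              Finset.sum_congr rfl fun x _ => Finset.sum_comm
          _ = ∑ m, ∑ x : L, ∑ y : L, a m x * b m y := Finset.sum_comm
          _ = _ := by
              refine Finset.sum_congr rfl fun m _ => ?_
              rw [Finset.sum_mul_sum]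
      have e3 : ∑ x : L, ∑ y : L, ∑ m, b m x * a m y = ∑ m, (∑ x : L, a m x) * (∑ y : L, b m y) := by
        calc _ = ∑ x : L, ∑ m, ∑ y : L, b m x * a m y :=
              Finset.sum_congr rfl fun x _ => Finset.sum_comm
          _ = ∑ m, ∑ x : L, ∑ y : L, b m x * a m y := Finset.sum_comm
          _ = _ := by
              refine Finset.sum_congr rfl fun m _ => ?_
              rw [mul_comm, Finset.sum_mul_sum]
      simp only [hP, Finset.sum_sub_distrib, Finset.sum_add_distrib, e2, e3, Finset.sum_const,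
        Finset.card_univ, nsmul_eq_mul, ← hN]
      ring
    rw [e1]
    have e4 : c * N * ∑ x : L, ∑ m, a m x ≤ ∑ m, (∑ x : L, a m x) * (∑ y : L, b m y) := by
      rw [Finset.sum_comm, Finset.mul_sum]
      refine Finset.sum_le_sum fun m _ => ?_
      rw [mul_comm]
      exact mul_le_mul_of_nonneg_left (hub m) (Finset.sum_nonneg fun x _ => hw0 _ _)
    linarith
  have h5 := sum_log_class T
  have h6 : ∑ x : L, Real.log (#{y : L | T y = T x}) - N * κ ≤ ∑ x : L, ∑ m, a m x := by
    have h := Finset.sum_le_sum (s := (univ : Finset L)) fun x _ => hsum x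
    simp only [Finset.sum_sub_distrib, Finset.sum_const, Finset.card_univ, nsmul_eq_mul] at h
    rw [← hN] at h
    exact h
  have h7 : Real.log (Fintype.card (Finset (Fin r)) : ℝ) = r * Real.log 2 := by
    rw [Fintype.card_finset, Fintype.card_fin]
    push_cast
    rw [Real.log_pow]
  rw [h7, ← hN, ← hl] at h5
  have h8 : ∑ x : L, ∑ y : L, P x y ≤
      N ^ 2 * ((1 - 2 * c) * l + 2 * c * (r * Real.log 2 + κ)) := by
    have h5' : N * (l - r * Real.log 2 - κ) ≤ ∑ x : L, ∑ m, a m x := by linarith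
    have : 2 * c * N * (N * (l - r * Real.log 2 - κ)) ≤ 2 * c * N * ∑ x : L, ∑ m, a m x :=
      mul_le_mul_of_nonneg_left h5' (by positivity)
    nlinarith
  rw [h2] at h1
  have h9 : (N * l) ^ 2 ≤
      (2 * r + 1) * (l * (N ^ 2 * ((1 - 2 * c) * l + 2 * c * (r * Real.log 2 + κ)))) := by
    refine h1.trans (mul_le_mul_of_nonneg_left ?_ (by positivity))
    exact h3.trans (mul_le_mul_of_nonneg_left h8 hl0)
  rcases hl0.eq_or_lt with h0 | hpos
  · rw [← h0]
    have : 0 ≤ Real.log 2 := Real.log_nonneg (by norm_num)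
    have : 0 ≤ (2 * (r : ℝ) + 1) * ((1 - 2 * c) * 0 + 2 * c * (r * Real.log 2 + κ)) := by
      rw [mul_zero, zero_add]
      positivity
    exact this
  · have hNl : 0 < N ^ 2 * l := by positivity
    have : (N ^ 2 * l) * l ≤
        (N ^ 2 * l) * ((2 * r + 1) * ((1 - 2 * c) * l + 2 * c * (r * Real.log 2 + κ))) := by
      calc _ = (N * l) ^ 2 := by ring
        _ ≤ _ := h9
        _ = _ := by ring
    exact le_of_mul_le_mul_left this hNl

/-- The case `κ = 0`. -/
theorem core [Nonempty L] (r : ℕ) (c : ℝ) (hc : 0 ≤ c) (T : L → Finset (Fin r))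
    (w : Finset (Fin r) → Fin r → ℝ)
    (hw0 : ∀ t m, 0 ≤ w t m)
    (hsum : ∀ x : L, ∑ m, w (T x) m = Real.log (#{y : L | T y = T x}))
    (hz : ∀ x : L, ∀ m ∈ T x, w (T x) m = 0)
    (hpair : ∀ x y : L, ∑ m ∈ T y, w (T x) m + ∑ m ∈ T x, w (T y) m ≤
      Real.log (Fintype.card L))
    (hu : ∀ m, c * Fintype.card L ≤ (#{y : L | m ∈ T y} : ℝ)) :
    Real.log (Fintype.card L) ≤
      (2 * r + 1) * ((1 - 2 * c) * Real.log (Fintype.card L) + 2 * c * (r * Real.log 2)) := by
  have h := core' r c 0 hc le_rfl T w hw0 (fun x => by rw [hsum x, sub_zero]) hz hpair hu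
  rwa [add_zero] at h

end Pool.Agent.H38.BR
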