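import Mathlib
import Pool.Agent.H38.BR.Asm
import Pool.Agent.H24.Loo
import Pool.Agent.H39.Fr.Choose
import Pool.Agent.H17.FM.Vals

set_option autoImplicit false

/-!
# Number of values of the seed map, and the main theorem
-/

namespace Pool.Agent.H38.BR

open Finset

open Classical in
/-- Finite lattices of small breadth. -/
theorem main {L : Type*} [Lattice L] [BoundedOrder L] [Fintype L] (b k : ℕ) (hk : 1 ≤ k)
    (M : Finset L) (hM : ∀ a : L, SupIrred a → ∃ m ∈ M, a ≤ m)
    (hb : ∀ S ⊆ M, ∃ T ⊆ S, T.card ≤ b ∧ T.sup id = S.sup id)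
    (hθ : b * (1 + Real.log k) < Real.log (Fintype.card L)) :
    ∃ a ∈ M, (#{x : L | a ≤ x} : ℝ) ≤ (1 / k + Real.log (Fintype.card L) /
      (2 * (Real.log (Fintype.card L) - b * (1 + Real.log k)))) * Fintype.card L := by
  have hk1 : (1 : ℝ) ≤ k := by exact_mod_cast hk
  have hlogk : 0 ≤ Real.log k := Real.log_nonneg hk1
  have hlogN : 0 < Real.log (Fintype.card L) := by
    refine lt_of_le_of_lt ?_ hθ
    positivity
  -- `M` is not empty
  have hMne : M.Nonempty := by
    by_contra hcon
    rw [Finset.not_nonempty_iff_eq_empty] at hcon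
    have hsubs : ∀ x y : L, x = y := fun x y => eq_of_supIrred_le fun a ha => by
      obtain ⟨m, hm, _⟩ := hM a ha
      rw [hcon] at hm
      exact absurd hm (Finset.notMem_empty m)
    have : Subsingleton L := ⟨hsubs⟩
    have h1 : Fintype.card L ≤ 1 := Fintype.card_le_one_iff_subsingleton.2 this
    have h2 : Real.log (Fintype.card L) ≤ 0 := by
      apply Real.log_nonpos (Nat.cast_nonneg _)
      exact_mod_cast h1
    linarith
  obtain ⟨m0, hm0⟩ := hMne
  have : Nonempty M := ⟨⟨m0, hm0⟩⟩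
  have hb' : ∀ S : Finset L, (∀ a ∈ S, ∃ m : M, a = (m : L)) →
      ∃ T ⊆ S, T.card ≤ b ∧ T.sup id = S.sup id := by
    intro S hS
    refine hb S fun a ha => ?_
    obtain ⟨m, rfl⟩ := hS a ha
    exact m.2
  have hinj : ∀ x y : L, (∀ m : M, x ⊓ (m : L) = y ⊓ (m : L)) → x = y := by
    intro x y hxy
    refine eq_of_supIrred_le fun a ha => ?_
    obtain ⟨m, hm, ham⟩ := hM a ha
    have e1 : a ≤ x ↔ a ≤ x ⊓ m := by simp [ham]
    have e2 : a ≤ y ↔ a ≤ y ⊓ m := by simp [ham]
    rw [e1, e2, hxy ⟨m, hm⟩]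
  obtain ⟨m, hm⟩ := asm (fun m : M => (m : L)) hinj b k hk
    (fun S => by
      refine le_trans ?_ (Pool.Agent.H39.Fr.sum_choose_le k b hk)
      have h1 := Pool.Agent.H17.FM.card_values (fun m : M => (m : L)) b (k * b) hb' S
      have h2 : (univ : Finset L).image (hs (fun m : M => (m : L)) S) = (univ : Finset L).image
          (fun x => (univ.filter (fun i => ((S i : M) : L) ≤ x)).sup (fun i => ((S i : M) : L))) := by
        refine Finset.image_congr fun x _ => ?_
        simp only [hs]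
      rw [h2]
      exact_mod_cast h1)
    (fun ν hν0 hν1 y => by
      have h1 := Pool.Agent.H24.Loo.loo (fun m : M => (m : L)) b (k * b) hb' ν hν0 hν1 y
      simp only [hs]
      exact h1) hθ
  exact ⟨m, m.2, hm⟩

end Pool.Agent.H38.BR
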