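import Mathlib

set_option autoImplicit false

/-!
For a real symmetric matrix `P` of rank at most `k`: `(tr P) ^ 2 ≤ k * ∑ P x y ^ 2`.
-/

namespace Pool.Agent.H38.BR

open Finset Matrix

theorem trace_sq_le_rank {ι : Type*} [Fintype ι] [DecidableEq ι] (P : Matrix ι ι ℝ)
    (hP : P.IsHermitian) : P.trace ^ 2 ≤ (P.rank : ℝ) * (P * P).trace := by
  have h1 : P.trace = ∑ i, hP.eigenvalues i := by
    simpa using hP.trace_eq_sum_eigenvalues
  have h2 : (P * P).trace = ∑ i, hP.eigenvalues i ^ 2 := by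
    have hs := hP.spectral_theorem
    have hd : P * P = (hP.eigenvectorUnitary : Matrix ι ι ℝ) *
        (diagonal (fun i => hP.eigenvalues i ^ 2)) *
        (star (hP.eigenvectorUnitary : Matrix ι ι ℝ)) := by
      conv_lhs => rw [hs]
      rw [← map_mul, Unitary.conjStarAlgAut_apply, Matrix.diagonal_mul_diagonal]
      congr 2
      ext i j
      simp [sq]
    rw [hd, Matrix.trace_mul_comm, ← Matrix.mul_assoc]
    have hu : star (hP.eigenvectorUnitary : Matrix ι ι ℝ) *
          (hP.eigenvectorUnitary : Matrix ι ι ℝ) = 1 := Unitary.coe_star_mul_self _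
    rw [hu, Matrix.one_mul, Matrix.trace_diagonal]
  have h3 : (P.rank : ℝ) = (#{i : ι | hP.eigenvalues i ≠ 0} : ℝ) := by
    rw [hP.rank_eq_card_non_zero_eigs, Fintype.card_subtype]
  rw [h1, h2, h3]
  have h4 : ∑ i, hP.eigenvalues i = ∑ i ∈ ({i : ι | hP.eigenvalues i ≠ 0} : Finset ι),
      hP.eigenvalues i := by
    rw [Finset.sum_filter_ne_zero]
  have h5 : ∑ i ∈ ({i : ι | hP.eigenvalues i ≠ 0} : Finset ι), hP.eigenvalues i ^ 2 ≤
      ∑ i, hP.eigenvalues i ^ 2 :=
    Finset.sum_le_sum_of_subset_of_nonneg (Finset.filter_subset _ _) fun i _ _ => sq_nonneg _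
  rw [h4]
  calc _ ≤ (#{i : ι | hP.eigenvalues i ≠ 0} : ℝ) *
        ∑ i ∈ ({i : ι | hP.eigenvalues i ≠ 0} : Finset ι), hP.eigenvalues i ^ 2 :=
        sq_sum_le_card_mul_sum_sq
    _ ≤ _ := mul_le_mul_of_nonneg_left h5 (Nat.cast_nonneg _)

/-- If `P x y` is symmetric and a sum of `#κ` products `f k x * g k y`, then
`(∑ P x x) ^ 2 ≤ #κ * ∑ P x y ^ 2`. -/
theorem diag_sq_le {ι κ : Type*} [Fintype ι] [Fintype κ] (f g : κ → ι → ℝ)
    (P : ι → ι → ℝ) (hP : ∀ x y, P x y = ∑ k, f k x * g k y) (hs : ∀ x y, P x y = P y x) :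
    (∑ x, P x x) ^ 2 ≤ (Fintype.card κ : ℝ) * ∑ x, ∑ y, P x y ^ 2 := by
  classical
  set A : Matrix ι ι ℝ := Matrix.of P with hA
  have hH : A.IsHermitian := by
    ext x y
    simp [hA, hs y x]
  have hrank : A.rank ≤ Fintype.card κ := by
    have h : A = (Matrix.of fun x k => f k x : Matrix ι κ ℝ) * (Matrix.of fun k y => g k y) := by
      ext x y
      simp [hA, Matrix.mul_apply, hP]
    rw [h]
    exact (Matrix.rank_mul_le_left _ _).trans (Matrix.rank_le_card_width _)
  have h1 := trace_sq_le_rank A hH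
  have h2 : A.trace = ∑ x, P x x := by
    simp [hA, Matrix.trace]
  have h3 : (A * A).trace = ∑ x, ∑ y, P x y ^ 2 := by
    simp only [Matrix.trace, Matrix.diag, Matrix.mul_apply, hA, Matrix.of_apply]
    refine Finset.sum_congr rfl fun x _ => Finset.sum_congr rfl fun y _ => ?_
    rw [hs y x, sq]
  rw [h2, h3] at h1
  refine h1.trans (mul_le_mul_of_nonneg_right (by exact_mod_cast hrank) ?_)
  exact Finset.sum_nonneg fun x _ => Finset.sum_nonneg fun y _ => sq_nonneg _

/-- The form used below: constant plus `2 r` products. -/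
theorem diag_sq_le_two {ι : Type*} [Fintype ι] (r : ℕ) (c : ℝ) (a b : Fin r → ι → ℝ) :
    (∑ x, (c - ∑ m, (a m x * b m x + b m x * a m x))) ^ 2 ≤
      (2 * r + 1 : ℝ) * ∑ x, ∑ y, (c - ∑ m, (a m x * b m y + b m x * a m y)) ^ 2 := by
  have h := diag_sq_le (ι := ι) (κ := Option (Fin r ⊕ Fin r))
    (fun k x => match k with
      | none => c
      | some (Sum.inl m) => - a m x
      | some (Sum.inr m) => - b m x)
    (fun k y => match k with
      | none => 1
      | some (Sum.inl m) => b m y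
      | some (Sum.inr m) => a m y)
    (fun x y => c - ∑ m, (a m x * b m y + b m x * a m y)) ?_ ?_
  · refine h.trans (le_of_eq ?_)
    congr 1
    simp
    ring
  · intro x y
    simp only [Fintype.sum_option, Fintype.sum_sum_type, Finset.sum_add_distrib, neg_mul,
      Finset.sum_neg_distrib, mul_one]
    ring
  · intro x y
    congr 1
    refine Finset.sum_congr rfl fun m _ => ?_
    ring

end Pool.Agent.H38.BR
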